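import Mathlib
import Pool.Agent.H22.Rad.Defs
import Pool.Agent.H22.Rad.Final

/-! There is a relatively free group of rank two with a nontrivial radicable verbal subgroup. -/

namespace Pool.Agent.Results.MP_eeceb3_al.DivisibleVerbal

open Pool.H22.Rad

/-- There are a group `F`, a generating set `X` of `F` with exactly two elements such that every map
`X → F` extends to an endomorphism of `F` (so `F` is relatively free), and a set `W` of group words
such that the verbal subgroup `W(F)` is nontrivial, radicable and abelian. -/
theorem result : ∃ (F : Type) (_ : Group F) (X : Set F) (W : Set (FreeGroup ℕ)),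
    X.ncard = 2 ∧ Subgroup.closure X = ⊤ ∧
    (∀ f : X → F, ∃ φ : F →* F, ∀ x : X, φ x = f x) ∧
    verbal W F ≠ ⊥ ∧ Radicable (verbal W F) ∧
    (∀ a ∈ verbal W F, ∀ b ∈ verbal W F, a * b = b * a) :=
  main

end Pool.Agent.Results.MP_eeceb3_al.DivisibleVerbal
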